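import Pool.Agent.helper83.ORE.SpecDE

set_option autoImplicit false

namespace Pool.Agent.ORE

open Module Pool.Agent.GS

noncomputable section

theorem EPQ_alt {F V : Type} [Field F] [AddCommGroup V] [Module F V]
    (Q : QuadraticForm F V) (h2 : (2 : F) = 0) (nd : Nd Q) : Alt (pb Q) :=
  ⟨fun x => pb_self2 h2 Q x, nd⟩

theorem EPQ_ker {F V : Type} [Field F] [AddCommGroup V] [Module F V]
    [FiniteDimensional F V] (Q : QuadraticForm F V) {m : ℕ} (w : Fin m → V) :
    ∃ U : Submodule F V, (∀ x, x ∈ U ↔ ∀ i, pb Q (w i) x = 0) ∧ finrank F V ≤ finrank F U + m := by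
  refine ⟨LinearMap.ker (LinearMap.pi fun i => pb Q (w i)), ?_, ?_⟩
  · intro x
    rw [LinearMap.mem_ker]
    constructor
    · intro h i
      exact congrFun h i
    · intro h
      funext i
      exact h i
  · have h1 := LinearMap.finrank_range_add_finrank_ker (LinearMap.pi fun i => pb Q (w i))
    have h3 : finrank F (LinearMap.range (LinearMap.pi fun i => pb Q (w i))) ≤ m := by
      refine le_trans (Submodule.finrank_le _) ?_
      rw [finrank_fin_fun]
    omega

theorem EPQ_xy (du : GS.DU_stmt) {F V : Type} [Field F] [AddCommGroup V] [Module F V]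
    [FiniteDimensional F V] (Q : QuadraticForm F V) (h2 : (2 : F) = 0) (nd : Nd Q) {m : ℕ}
    (w : Fin m → V) (hm : 2 * m < finrank F V) :
    ∃ x y, (∀ i, pb Q (w i) x = 0) ∧ (∀ i, pb Q (w i) y = 0) ∧ pb Q x y = 1 := by
  obtain ⟨U, hU, hd⟩ := EPQ_ker Q w
  by_contra hno
  have hz : ∀ x ∈ U, ∀ y ∈ U, pb Q x y = 0 := by
    intro x hx y hy
    by_contra hxy
    apply hno
    refine ⟨x, (pb Q x y)⁻¹ • y, (hU x).1 hx, (hU _).1 (U.smul_mem _ hy), ?_⟩
    rw [map_smul, smul_eq_mul, inv_mul_cancel₀ hxy]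
  let b := Module.finBasis F U
  have hb : LinearIndependent F (fun i => ((b i : U) : V)) :=
    b.linearIndependent.map' U.subtype (Submodule.ker_subtype U)
  have hs : Function.Surjective (LinearMap.pi fun i => pb Q ((b i : U) : V)) := by
    intro c
    obtain ⟨v, hv⟩ := du (pb Q) (EPQ_alt Q h2 nd) (fun i => ((b i : U) : V)) hb c
    exact ⟨v, funext hv⟩
  have h1 := LinearMap.finrank_range_add_finrank_ker (LinearMap.pi fun i => pb Q ((b i : U) : V))
  rw [LinearMap.range_eq_top.2 hs, finrank_top, finrank_fin_fun] at h1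
  have h3 : U ≤ LinearMap.ker (LinearMap.pi fun i => pb Q ((b i : U) : V)) := by
    intro x hx
    rw [LinearMap.mem_ker]
    funext i
    exact hz _ (b i).2 x hx
  have h4 := Submodule.finrank_mono h3
  omega

theorem EPQ_val {F V : Type} [Field F] [Finite F] [AddCommGroup V] [Module F V]
    (Q : QuadraticForm F V) (h2 : (2 : F) = 0) {x y d : V} (hxy : pb Q x y = 1)
    (hx : pb Q d x = 0) (hy : pb Q d y = 0) (τ : F) :
    ∃ l n : F, Q (d + l • x + n • y) = τ := by
  have h2' : CharP F 2 := charP2 h2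
  have hsq : ∀ a : F, ∃ c : F, c ^ 2 = a := by
    intro a
    obtain ⟨c, hc⟩ := FiniteField.isSquare_of_char_two (F := F) (ringChar.eq F 2) a
    exact ⟨c, by rw [hc, pow_two]⟩
  have hv : ∀ l n : F, Q (d + l • x + n • y) = Q d + l ^ 2 * Q x + n ^ 2 * Q y + l * n := by
    intro l n
    rw [Q_add, Q_add, Q_smul, Q_smul]
    simp only [map_add, LinearMap.add_apply, map_smul, LinearMap.smul_apply, smul_eq_mul, hxy, hx, hy]
    ring
  by_cases h1 : Q x = 0
  · by_cases h3 : Q y = 0
    · refine ⟨τ - Q d, 1, ?_⟩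
      rw [hv, h1, h3]
      ring
    · obtain ⟨c, hc⟩ := hsq ((τ - Q d) / Q y)
      refine ⟨0, c, ?_⟩
      rw [hv, hc]
      field_simp
      ring
  · obtain ⟨c, hc⟩ := hsq ((τ - Q d) / Q x)
    refine ⟨c, 0, ?_⟩
    rw [hv, hc]
    field_simp
    ring

/-- Prescribed vectors. -/
theorem EPQ (du : GS.DU_stmt) : EPQ_stmt := by
  intro F V _ _ _ _ _ Q h2 nd k v hv α τ
  constructor
  · intro hk
    obtain ⟨d₀, hd₀⟩ := du (pb Q) (EPQ_alt Q h2 nd) v hv α
    obtain ⟨x, y, hx, hy, hxy⟩ := EPQ_xy du Q h2 nd v hk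
    have hyx : pb Q y x = 1 := by rw [pb_symm, hxy]
    obtain ⟨l, n, hln⟩ := EPQ_val Q h2 (x := x) (y := y)
      (d := d₀ + pb Q d₀ y • x + pb Q d₀ x • y) hxy
      (by
        simp only [map_add, LinearMap.add_apply, map_smul, LinearMap.smul_apply, smul_eq_mul, hyx,
          pb_self2 h2, mul_zero, mul_one, add_zero]
        exact add2 h2 _)
      (by
        simp only [map_add, LinearMap.add_apply, map_smul, LinearMap.smul_apply, smul_eq_mul, hxy,
          pb_self2 h2, mul_zero, mul_one, add_zero]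
        exact add2 h2 _) τ
    refine ⟨_, ?_, hln⟩
    intro i
    simp only [map_add, map_smul, smul_eq_mul, hx i, hy i, mul_zero, add_zero]
    exact hd₀ i
  · intro hk
    have hd : ∃ d₀, (∀ i, pb Q (v i) d₀ = α i) ∧ d₀ ∉ Submodule.span F (Set.range v) := by
      obtain ⟨d₀, hd₀⟩ := du (pb Q) (EPQ_alt Q h2 nd) v hv α
      by_cases hm : d₀ ∈ Submodule.span F (Set.range v)
      · obtain ⟨U, hU, hUd⟩ := EPQ_ker Q v
        have h3 : ¬ U ≤ Submodule.span F (Set.range v) := by
          intro h4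
          have h5 := Submodule.finrank_mono h4
          have h6 : finrank F (Submodule.span F (Set.range v)) ≤ k := by
            refine le_trans (finrank_range_le_card v) ?_
            rw [Fintype.card_fin]
          omega
        obtain ⟨u, hu, hu'⟩ := SetLike.not_le_iff_exists.1 h3
        refine ⟨d₀ + u, ?_, ?_⟩
        · intro i
          rw [map_add, hd₀ i, (hU u).1 hu i, add_zero]
        · intro h4
          apply hu'
          have h5 := Submodule.sub_mem _ h4 hm
          rwa [add_sub_cancel_left] at h5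
      · exact ⟨d₀, hd₀, hm⟩
    obtain ⟨d₀, hd₀, hS⟩ := hd
    obtain ⟨x, y, hx, hy, hxy⟩ := EPQ_xy du Q h2 nd (Fin.cons d₀ v : Fin (k + 1) → V) (by omega)
    have hyx : pb Q y x = 1 := by rw [pb_symm, hxy]
    have hx0 : pb Q d₀ x = 0 := hx 0
    have hy0 : pb Q d₀ y = 0 := hy 0
    have hx1 : ∀ i, pb Q (v i) x = 0 := fun i => hx i.succ
    have hy1 : ∀ i, pb Q (v i) y = 0 := fun i => hy i.succ
    obtain ⟨l, n, hln⟩ := EPQ_val Q h2 hxy hx0 hy0 τ
    refine ⟨_, ?_, hln, ?_⟩
    · intro i
      simp only [map_add, map_smul, smul_eq_mul, hx1 i, hy1 i, mul_zero, add_zero]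
      exact hd₀ i
    · intro hw
      have hor : ∀ z, (∀ i, pb Q (v i) z = 0) → ∀ s ∈ Submodule.span F (Set.range v),
          pb Q s z = 0 := by
        intro z hz s hs
        refine Submodule.span_induction (p := fun s _ => pb Q s z = 0) ?_ ?_ ?_ ?_ hs
        · rintro _ ⟨i, rfl⟩
          exact hz i
        · rw [map_zero, LinearMap.zero_apply]
        · intro a b _ _ ha hb
          rw [map_add, LinearMap.add_apply, ha, hb, add_zero]
        · intro c a _ ha
          rw [map_smul, LinearMap.smul_apply, ha, smul_zero]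
      have e1 := hor x hx1 _ hw
      have e2 := hor y hy1 _ hw
      simp only [map_add, LinearMap.add_apply, map_smul, LinearMap.smul_apply, smul_eq_mul, hxy,
        hyx, hx0, hy0, pb_self2 h2, mul_zero, mul_one, add_zero, zero_add] at e1 e2
      rw [e1, e2, zero_smul, zero_smul, add_zero, add_zero] at hw
      exact hS hw

end

end Pool.Agent.ORE
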