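import Pool.Agent.helper53.ORE.Spec

/-!
# MP_561ff4, row O1: an element of odd order with a fixed singular vector
-/

set_option autoImplicit false

namespace Pool.Agent.ORE

open Module Pool.Agent.GS

open scoped BigOperators

section aux

variable {F V : Type} [Field F] [AddCommGroup V] [Module F V]

/-- `y v = v + x`, `y x = x`: the powers -/
private theorem O1_pow {y : Equiv.Perm V} (hy : Lin F y) {v x : V} (h1 : y v = v + x)
    (h2 : y x = x) (k : ℕ) : (y ^ k) v = v + (k : F) • x := by
  induction k with
  | zero => simp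
  | succ k ih =>
    rw [pow_succ', Equiv.Perm.mul_apply, ih, hy.1, hy.2, h1, h2]
    push_cast
    rw [add_smul, one_smul]
    abel

/-- fixed vectors of the form `y v + v` are zero -/
private theorem O1_zero (h2 : (2 : F) = 0) {y : Equiv.Perm V} (hy : Lin F y) {l : ℕ}
    (hl : Odd l) (hyl : y ^ l = 1) {v : V} (h : y (y v + v) = y v + v) : y v + v = 0 := by
  have h1 : y v = v + (y v + v) := by
    rw [add_comm (y v) v, ← add_assoc, addV h2, zero_add]
  have h3 := O1_pow hy h1 h l
  rw [hyl, Equiv.Perm.one_apply] at h3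
  obtain ⟨k, rfl⟩ := hl
  have h4 : (((2 * k + 1 : ℕ) : F)) = 1 := by
    push_cast
    rw [h2]
    ring
  rw [h4, one_smul] at h3
  exact (left_eq_add.1 h3)

end aux

theorem O1 (c2 : C2_stmt) (c3 : C3_stmt) (cw : CWQ_stmt) : O1_stmt := by
  intro F V _ _ _ _ _ Q h2 hnd hn y hy hy1 l hl hyl u hu hQu hyu
  have hlin : Lin F y := hy.1
  set N : V →ₗ[F] V := Ly y hlin + LinearMap.id with hN
  have hNa : ∀ v, N v = y v + v := fun v => rfl
  -- fixed vectors are orthogonal to the range
  have horth : ∀ x v, y x = x → pb Q x (N v) = 0 := by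
    intro x v hx
    rw [hNa, map_add]
    have h3 := OQ_pb hy x v
    rw [hx] at h3
    rw [h3, add2 h2]
  have horth' : ∀ x, (∀ v, pb Q x (N v) = 0) → y x = x := by
    intro x hx
    have h3 : y x + x = 0 := by
      apply hnd
      intro w
      have h4 := hx (y⁻¹ w)
      rw [hNa, map_add, pinv] at h4
      have h5 := OQ_pb hy x (y⁻¹ w)
      rw [pinv] at h5
      rw [map_add, LinearMap.add_apply, h5]
      linear_combination h4
    exact eq_of_addV h2 h3
  have hzero : ∀ v, y (N v) = N v → N v = 0 := fun v h => O1_zero h2 hlin hl hyl h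
  by_cases hA : ∃ a ∈ LinearMap.range N, a ≠ 0 ∧ pb Q a (y a) = 0
  · obtain ⟨a, ⟨b, hb⟩, ha0, haa⟩ := hA
    have hya : y a ≠ a := by
      intro h
      rw [← hb] at h ha0
      exact ha0 (hzero b h)
    have hNa0 : N a ≠ 0 := by
      intro h
      exact hya (eq_of_addV h2 h)
    refine c2 Q h2 hnd hn y hy u a 1 one_ne_zero (by rw [hyu, one_smul]) hQu ?_ ?_ ?_
    · rw [← hb]
      exact horth u b hyu
    · rw [one_smul, Q_add, hy.2, pb_symm, haa, add_zero, add2 h2]
    · rw [one_smul, LinearIndependent.pair_iff]
      intro s t hst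
      have h3 : y a + a = N a := rfl
      rw [h3] at hst
      have h4 : N (t • a) = s • u := by
        rw [map_smul]
        have h5 : t • N a + s • u = 0 := by rw [add_comm]; exact hst
        exact eq_of_addV h2 h5
      have h5 : y (N (t • a)) = N (t • a) := by
        rw [h4, hlin.2, hyu]
      have h6 := hzero _ h5
      have h7 : t = 0 := by
        rw [map_smul] at h6
        exact (smul_eq_zero.1 h6).resolve_right hNa0
      refine ⟨?_, h7⟩
      rw [h6] at h4
      exact (smul_eq_zero.1 h4.symm).resolve_right hu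
  · have hB : ∀ a ∈ LinearMap.range N, a ≠ 0 → pb Q a (y a) ≠ 0 :=
      fun a ha h0 h => hA ⟨a, ha, h0, h⟩
    have hdim : finrank F (LinearMap.range N) ≤ 2 := by
      by_contra hlt
      obtain ⟨a, ha, ha0, haS⟩ := (cw (qy Q y hlin) (qy Q y hlin)).1 (LinearMap.range N) (by omega)
      exact hB a ha ha0 haS
    -- a vector which is not fixed
    obtain ⟨v, hv⟩ : ∃ v, y v ≠ v := by
      by_contra hno
      apply hy1
      ext x
      by_contra hx
      exact hno ⟨x, hx⟩
    set p : V := N v with hp
    have hp0 : p ≠ 0 := fun h => hv (eq_of_addV h2 h)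
    have hpr : p ∈ LinearMap.range N := ⟨v, rfl⟩
    have hstab : ∀ x ∈ LinearMap.range N, y x ∈ LinearMap.range N := by
      rintro _ ⟨w, rfl⟩
      exact ⟨y w, by rw [hNa, hNa, hlin.1]⟩
    have hyp : y p ∈ LinearMap.range N := hstab p hpr
    have he : pb Q p (y p) ≠ 0 := hB p hpr hp0
    have he' : pb Q (y p) p ≠ 0 := by rw [pb_symm]; exact he
    have hind : LinearIndependent F ![p, y p] := by
      rw [LinearIndependent.pair_iff]
      intro s t hst
      constructor
      · have h3 : pb Q (s • p + t • y p) (y p) = 0 := by rw [hst]; simp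
        rw [map_add, LinearMap.add_apply, map_smul, map_smul, LinearMap.smul_apply,
          LinearMap.smul_apply, pb_self2 h2, smul_zero, add_zero, smul_eq_mul] at h3
        exact (mul_eq_zero.1 h3).resolve_right he
      · have h3 : pb Q (s • p + t • y p) p = 0 := by rw [hst]; simp
        rw [map_add, LinearMap.add_apply, map_smul, map_smul, LinearMap.smul_apply,
          LinearMap.smul_apply, pb_self2 h2, smul_zero, zero_add, smul_eq_mul] at h3
        exact (mul_eq_zero.1 h3).resolve_right he'
    have hspan : Submodule.span F {p, y p} = LinearMap.range N := by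
      apply Submodule.eq_of_le_of_finrank_le
      · rw [Submodule.span_le]
        rintro w (rfl | rfl)
        · exact hpr
        · exact hyp
      · refine hdim.trans ?_
        have h3 := finrank_span_eq_card hind
        rw [Matrix.range_cons, Matrix.range_cons, Matrix.range_empty, Set.union_empty,
          Set.singleton_union] at h3
        rw [h3, Fintype.card_fin]
    have hmem : ∀ w ∈ LinearMap.range N, ∃ s t : F, s • p + t • y p = w := by
      intro w hw
      rw [← hspan, Submodule.mem_span_pair] at hw
      exact hw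
    -- the inverse of `y` on `p`
    have hinvr : y⁻¹ p ∈ LinearMap.range N := by
      refine ⟨y⁻¹ v, ?_⟩
      apply y.injective
      rw [pinv, hNa, hlin.1, pinv]
      rfl
    obtain ⟨γ, δ, hγ⟩ := hmem _ hinvr
    have hδ : δ = 1 := by
      have h3 : pb Q (y⁻¹ p) p = pb Q p (y p) := by
        have h4 := OQ_pb hy (y⁻¹ p) p
        rw [pinv] at h4
        exact h4.symm
      rw [← hγ, map_add, LinearMap.add_apply, map_smul, map_smul, LinearMap.smul_apply,
        LinearMap.smul_apply, pb_self2 h2, smul_zero, zero_add, smul_eq_mul, pb_symm] at h3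
      have h4 : (δ - 1) * pb Q p (y p) = 0 := by linear_combination h3
      exact sub_eq_zero.1 ((mul_eq_zero.1 h4).resolve_right he)
    rw [hδ, one_smul] at hγ
    have hs1 : y p + y⁻¹ p = γ • p := by
      rw [← hγ, add_comm (γ • p) (y p), ← add_assoc, addV h2, zero_add]
    have hs2 : y (y p) + y⁻¹ (y p) = γ • y p := by
      have h3 := congrArg y hs1
      rw [hlin.1, pinv, hlin.2] at h3
      rw [invp]
      exact h3
    have hγ0 : γ ≠ 0 := by
      intro h
      rw [h, zero_smul] at hs2
      rw [invp] at hs2
      have h3 : y (y p) = p := eq_of_addV h2 hs2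
      have h4 : y (N p) = N p := by
        rw [hNa, hlin.1, h3, add_comm]
      have h5 := hzero p h4
      have h6 : y p = p := eq_of_addV h2 h5
      exact hp0 (hzero v h6)
    refine c3 Q h2 hnd hn y hy p (y p) γ he hγ0 ?_ hs1 hs2
    intro x hx1 hx2
    apply horth'
    intro w
    obtain ⟨s, t, hst⟩ := hmem (N w) ⟨w, rfl⟩
    rw [← hst, map_add, map_smul, map_smul, hx1, hx2, smul_zero, smul_zero, add_zero]

end Pool.Agent.ORE
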